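import Pool.Agent.Helper27.LZ.R

/-!
# The scalar inequality for small `a` from its limit form

`ζ = a (1 + i η)` with `η` fixed. If the path `l` satisfies the strict limit inequality
`sinh² l + sin² arg < (1 + l')² |D|² / 4` on `[x₀, X]`, then the exact inequality holds for all small
`a` and all `r` with `x₀ ≤ r a ≤ X`.
-/

set_option autoImplicit false

namespace Pool.Agent.Helper69.TW

open Filter Topology Set
open Pool.Agent.Helper27.LZ (D norm_sq_sub_one)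

theorem cosh_ge (p : ℝ) : 1 + p ^ 2 / 2 ≤ Real.cosh p := by
  have h1 : Real.cosh p = 1 + 2 * Real.sinh (p / 2) ^ 2 := by
    have h := Real.cosh_two_mul (p / 2)
    have h2 := Real.cosh_sq (p / 2)
    rw [show 2 * (p / 2) = p by ring] at h
    rw [h, h2]
    ring
  have h3 : (p / 2) ^ 2 ≤ Real.sinh (p / 2) ^ 2 := by
    rcases le_total 0 (p / 2) with h | h
    · exact pow_le_pow_left₀ h (Real.self_le_sinh_iff.2 h) 2
    · have h4 : Real.sinh (p / 2) ≤ p / 2 := Real.sinh_le_self_iff.2 h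
      nlinarith
  rw [h1]
  nlinarith

/-- the final step -/
theorem final {w : ℂ} {a c p q : ℝ} (ha : 0 < a) (hc : 0 < c) (hp : c * a ≤ p)
    (h1 : 0 < ‖(a : ℂ) * w‖ ^ 2 * c ^ 2 / 2 - (Real.cosh q - 1))
    (h2 : 0 < 2 * ‖(a : ℂ) * w‖ ^ 2 - a ^ 2 * (Real.cosh q + 1))
    (h3 : 4 * ((a : ℂ) * w).im ^ 2 < (‖(a : ℂ) * w‖ ^ 2 * c ^ 2 / 2 - (Real.cosh q - 1)) *
      (2 * ‖(a : ℂ) * w‖ ^ 2 - a ^ 2 * (Real.cosh q + 1))) :
    ‖w ^ 2 - 1‖ + Real.cosh q < ‖w‖ ^ 2 * Real.cosh p := by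
  have e1 : ‖(a : ℂ) * w‖ ^ 2 = a ^ 2 * ‖w‖ ^ 2 := by
    rw [norm_mul, Complex.norm_real, Real.norm_eq_abs, mul_pow, sq_abs]
  have e2 : ((a : ℂ) * w).im = a * w.im := by
    simp
  rw [e1] at h1 h2 h3
  rw [e2] at h3
  have ha2 : 0 < a ^ 2 := by positivity
  have hca : 0 < c * a := mul_pos hc ha
  have hcosh : 1 + (c * a) ^ 2 / 2 ≤ Real.cosh p := by
    refine le_trans ?_ (cosh_ge p)
    have : (c * a) ^ 2 ≤ p ^ 2 := pow_le_pow_left₀ hca.le hp 2
    linarith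
  set N := ‖w‖ ^ 2 with hN
  have hN0 : 0 ≤ N := by positivity
  have f1 : a ^ 2 * N * c ^ 2 / 2 - (Real.cosh q - 1) ≤
      N * (Real.cosh p - 1) - (Real.cosh q - 1) := by
    have := mul_le_mul_of_nonneg_left hcosh hN0
    nlinarith
  have f2 : 2 * (a ^ 2 * N) - a ^ 2 * (Real.cosh q + 1) ≤
      a ^ 2 * (N * (Real.cosh p + 1) - (Real.cosh q + 1)) := by
    have h4 : N * 2 ≤ N * (Real.cosh p + 1) := by
      refine mul_le_mul_of_nonneg_left ?_ hN0
      nlinarith [sq_nonneg (c * a)]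
    have := mul_le_mul_of_nonneg_left h4 ha2.le
    nlinarith
  have g1 : 0 < N * (Real.cosh p - 1) - (Real.cosh q - 1) := lt_of_lt_of_le h1 f1
  have g2 : 0 < N * (Real.cosh p + 1) - (Real.cosh q + 1) := by
    have := lt_of_lt_of_le h2 f2
    exact (mul_pos_iff_of_pos_left ha2).1 this
  have g3 : 4 * w.im ^ 2 < (N * (Real.cosh p - 1) - (Real.cosh q - 1)) *
      (N * (Real.cosh p + 1) - (Real.cosh q + 1)) := by
    have h5 : 4 * (a * w.im) ^ 2 < (N * (Real.cosh p - 1) - (Real.cosh q - 1)) *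
        (a ^ 2 * (N * (Real.cosh p + 1) - (Real.cosh q + 1))) :=
      lt_of_lt_of_le h3 (mul_le_mul f1 f2 h2.le g1.le)
    have h6 : a ^ 2 * (4 * w.im ^ 2) < a ^ 2 * ((N * (Real.cosh p - 1) - (Real.cosh q - 1)) *
        (N * (Real.cosh p + 1) - (Real.cosh q + 1))) := by
      nlinarith
    exact lt_of_mul_lt_mul_left h6 ha2.le
  have g4 : 0 < N * Real.cosh p - Real.cosh q := by nlinarith
  have g5 : ‖w ^ 2 - 1‖ ^ 2 < (N * Real.cosh p - Real.cosh q) ^ 2 := by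
    rw [norm_sq_sub_one w, ← hN]
    nlinarith
  have g6 : ‖w ^ 2 - 1‖ < N * Real.cosh p - Real.cosh q :=
    lt_of_pow_lt_pow_left₀ 2 g4.le g5
  linarith

/-- `sinh (a λ) / a → λ` -/
theorem tendsto_sinh (lam : ℂ) : Tendsto (fun a : ℝ => Complex.sinh ((a : ℂ) * lam) / (a : ℂ))
    (𝓝[≠] 0) (𝓝 lam) := by
  have h1 : HasDerivAt (fun a : ℝ => Complex.sinh ((a : ℂ) * lam)) lam 0 := by
    have h2 : HasDerivAt (fun a : ℝ => (a : ℂ) * lam) lam 0 := by
      have := (Complex.ofRealCLM.hasDerivAt (x := (0 : ℝ))).mul_const lam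
      simpa using this
    have h3 := (Complex.hasDerivAt_sinh ((0 : ℝ) * lam : ℂ)).comp (0 : ℝ) h2
    have e : Complex.cosh ((0 : ℝ) * lam : ℂ) * lam = lam := by simp
    rw [e] at h3
    exact h3
  have h4 := h1.tendsto_slope_zero
  refine h4.congr fun a => ?_
  simp only [zero_add, Complex.ofReal_zero, zero_mul, Complex.sinh_zero, sub_zero]
  rw [Complex.real_smul, Complex.ofReal_inv, div_eq_inv_mul]

/-- `|sinh (x (1 + i η)) / (1 + i η)| ^ 2` -/
noncomputable def G (x η : ℝ) : ℝ := (Real.sinh x ^ 2 + Real.sin (η * x) ^ 2) / (1 + η ^ 2)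

/-- `Im (sinh (x (1 + i η)) / (1 + i η))` -/
noncomputable def I (x η : ℝ) : ℝ :=
  (Real.cosh x * Real.sin (η * x) - η * (Real.sinh x * Real.cos (η * x))) / (1 + η ^ 2)

theorem sinh_mul (x η : ℝ) : Complex.sinh ((x : ℂ) * (1 + η * Complex.I)) =
    ((Real.sinh x * Real.cos (η * x) : ℝ) : ℂ) +
      ((Real.cosh x * Real.sin (η * x) : ℝ) : ℂ) * Complex.I := by
  have e : (x : ℂ) * (1 + η * Complex.I) = (x : ℂ) + ((η * x : ℝ) : ℂ) * Complex.I := by
    push_cast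
    ring
  rw [e, Complex.sinh_add, Complex.sinh_mul_I, Complex.cosh_mul_I]
  push_cast
  ring

theorem lam_ne (η : ℝ) : (1 + η * Complex.I : ℂ) ≠ 0 := by
  intro h
  have := congrArg Complex.re h
  simp at this

theorem div_eq (x η : ℝ) : Complex.sinh ((x : ℂ) * (1 + η * Complex.I)) / (1 + η * Complex.I) =
    (((Real.sinh x * Real.cos (η * x) + η * (Real.cosh x * Real.sin (η * x))) / (1 + η ^ 2) : ℝ) : ℂ) +
      ((I x η : ℝ) : ℂ) * Complex.I := by
  rw [div_eq_iff (lam_ne η), sinh_mul]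
  have h : ((1 + η ^ 2 : ℝ) : ℂ) ≠ 0 := by
    rw [Complex.ofReal_ne_zero]
    positivity
  unfold I
  push_cast at h ⊢
  field_simp
  ring_nf
  rw [Complex.I_sq]
  ring

theorem im_div (x η : ℝ) :
    (Complex.sinh ((x : ℂ) * (1 + η * Complex.I)) / (1 + η * Complex.I)).im = I x η := by
  rw [div_eq]
  exact Pool.Agent.Helper27.LZ.im_ofReal_add_ofReal_mul_I _ _

theorem norm_div_sq (x η : ℝ) :
    ‖Complex.sinh ((x : ℂ) * (1 + η * Complex.I)) / (1 + η * Complex.I)‖ ^ 2 = G x η := by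
  rw [norm_div, div_pow, sinh_mul]
  have e1 : ‖((Real.sinh x * Real.cos (η * x) : ℝ) : ℂ) +
      ((Real.cosh x * Real.sin (η * x) : ℝ) : ℂ) * Complex.I‖ ^ 2 =
      Real.sinh x ^ 2 + Real.sin (η * x) ^ 2 := by
    rw [← Complex.normSq_eq_norm_sq, Complex.normSq_add_mul_I]
    have h1 := Real.cosh_sq x
    have h2 := Real.sin_sq_add_cos_sq (η * x)
    have h3 : Real.cos (η * x) ^ 2 = 1 - Real.sin (η * x) ^ 2 := by linarith
    rw [mul_pow, mul_pow, h1, h3]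
    ring
  have e2 : ‖(1 + η * Complex.I : ℂ)‖ ^ 2 = 1 + η ^ 2 := by
    have : (1 + η * Complex.I : ℂ) = ((1 : ℝ) : ℂ) + (η : ℂ) * Complex.I := by push_cast; ring
    rw [← Complex.normSq_eq_norm_sq, this, Complex.normSq_add_mul_I]
    ring
  rw [e1, e2]
  rfl

theorem G_pos {x η : ℝ} (hx : 0 < x) : 0 < G x η := by
  unfold G
  have : 0 < Real.sinh x := Real.sinh_pos_iff.2 hx
  positivity

/-- **The soft limit.** -/
theorem soft {η x₀ X : ℝ} (hx0 : 0 < x₀) {l lam : ℝ → ℝ}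
    (hl : ∀ x ∈ Icc x₀ X, ContinuousWithinAt l (Ici x₀) x)
    (hslope : ∀ x ∈ Icc x₀ X, ∀ δ > 0, ∃ ε > 0, ∀ x' x'' : ℝ, x₀ ≤ x' → x' ≤ x'' → |x' - x| < ε →
      |x'' - x| < ε → (lam x - δ) * (x'' - x') ≤ l x'' - l x')
    (hlam : ∀ x ∈ Icc x₀ X, 0 < 1 + lam x)
    (hC : ∀ x ∈ Icc x₀ X, Real.sinh (l x) ^ 2 * G x η + I x η ^ 2 <
      (1 + lam x) ^ 2 / 4 * G x η ^ 2) :
    ∃ a₀ > 0, ∀ a : ℝ, 0 < a → a ≤ a₀ → ∀ r : ℕ, x₀ ≤ r * a → r * a ≤ X →
      ‖D ((a : ℂ) + ((η * a : ℝ) : ℂ) * Complex.I) r ^ 2 - 1‖ +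
        Real.cosh (l (r * a) + l ((r + 1) * a) - a) <
      ‖D ((a : ℂ) + ((η * a : ℝ) : ℂ) * Complex.I) r‖ ^ 2 *
        Real.cosh (a + l ((r + 1) * a) - l (r * a)) := by
  by_contra hcon
  push Not at hcon
  have h1 : ∀ k : ℕ, ∃ a : ℝ, 0 < a ∧ a ≤ 1 / ((k : ℝ) + 1) ∧ ∃ r : ℕ, x₀ ≤ r * a ∧ r * a ≤ X ∧
      ‖D ((a : ℂ) + ((η * a : ℝ) : ℂ) * Complex.I) r‖ ^ 2 *
        Real.cosh (a + l ((r + 1) * a) - l (r * a)) ≤
      ‖D ((a : ℂ) + ((η * a : ℝ) : ℂ) * Complex.I) r ^ 2 - 1‖ +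
        Real.cosh (l (r * a) + l ((r + 1) * a) - a) := by
    intro k
    obtain ⟨a, ha, hak, r, hr⟩ := hcon (1 / ((k : ℝ) + 1)) (by positivity)
    exact ⟨a, ha, hak, r, hr⟩
  choose a ha hak r hr1 hr2 hbad using h1
  obtain ⟨xs, hxs, φ, hφ, hlim⟩ := (isCompact_Icc (a := x₀) (b := X)).tendsto_subseq
    (x := fun k => (r k : ℝ) * a k) (fun k => ⟨hr1 k, hr2 k⟩)
  -- the sequence `a` tends to zero
  have ha0 : Tendsto a atTop (𝓝 0) := by
    refine squeeze_zero (fun k => (ha k).le) hak ?_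
    exact tendsto_one_div_add_atTop_nhds_zero_nat
  have ha0φ : Tendsto (fun k => a (φ k)) atTop (𝓝 0) := ha0.comp hφ.tendsto_atTop
  have hanz : Tendsto (fun k => a (φ k)) atTop (𝓝[≠] 0) := by
    rw [tendsto_nhdsWithin_iff]
    exact ⟨ha0φ, Eventually.of_forall fun k => (ha (φ k)).ne'⟩
  set L : ℂ := 1 + η * Complex.I with hL
  set x : ℕ → ℝ := fun k => (r (φ k) : ℝ) * a (φ k) with hx
  have hxlim : Tendsto x atTop (𝓝 xs) := hlim
  have hx2 : Tendsto (fun k => x k + a (φ k)) atTop (𝓝 xs) := by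
    have := hxlim.add ha0φ
    rwa [add_zero] at this
  -- the values of the path
  have hl1 : Tendsto (fun k => l (x k)) atTop (𝓝 (l xs)) := by
    refine (hl xs hxs).tendsto.comp ?_
    rw [tendsto_nhdsWithin_iff]
    exact ⟨hxlim, Eventually.of_forall fun k => hr1 (φ k)⟩
  have hl2 : Tendsto (fun k => l (x k + a (φ k))) atTop (𝓝 (l xs)) := by
    refine (hl xs hxs).tendsto.comp ?_
    rw [tendsto_nhdsWithin_iff]
    refine ⟨hx2, Eventually.of_forall fun k => ?_⟩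
    have := hr1 (φ k)
    have := ha (φ k)
    simp only [mem_Ici]
    simp only [hx]
    linarith
  have hq : Tendsto (fun k => Real.cosh (l (x k) + l (x k + a (φ k)) - a (φ k))) atTop
      (𝓝 (Real.cosh (l xs + l xs - 0))) :=
    (Real.continuous_cosh.tendsto _).comp ((hl1.add hl2).sub ha0φ)
  rw [sub_zero] at hq
  -- the values of `a D`
  have hv : Tendsto (fun k => (a (φ k) : ℂ) * D ((a (φ k) : ℂ) + ((η * a (φ k) : ℝ) : ℂ) *
      Complex.I) (r (φ k))) atTop (𝓝 (Complex.sinh ((xs : ℂ) * L) / L)) := by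
    have e : ∀ k, (a (φ k) : ℂ) * D ((a (φ k) : ℂ) + ((η * a (φ k) : ℝ) : ℂ) * Complex.I)
        (r (φ k)) = Complex.sinh ((x k : ℂ) * L) / (Complex.sinh ((a (φ k) : ℂ) * L) /
          (a (φ k) : ℂ)) := by
      intro k
      have e1 : (a (φ k) : ℂ) + ((η * a (φ k) : ℝ) : ℂ) * Complex.I = (a (φ k) : ℂ) * L := by
        rw [hL]
        push_cast
        ring
      have e2 : ((r (φ k) : ℕ) : ℂ) * ((a (φ k) : ℂ) * L) = (x k : ℂ) * L := by
        simp only [hx]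
        push_cast
        ring
      unfold D
      rw [e1, e2, div_div_eq_mul_div, mul_comm (Complex.sinh _) (a (φ k) : ℂ), mul_div_assoc]
    simp only [e]
    refine Tendsto.div ?_ ((tendsto_sinh L).comp hanz) (by rw [hL]; exact lam_ne η)
    refine (Complex.continuous_sinh.tendsto _).comp ?_
    exact ((Complex.continuous_ofReal.tendsto _).comp hxlim).mul_const L
  -- the constant `δ`
  have hGp := G_pos (x := xs) (η := η) (lt_of_lt_of_le hx0 hxs.1)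
  have hstrict := hC xs hxs
  have hlp := hlam xs hxs
  obtain ⟨c, hc0, hc1, hc2⟩ : ∃ c : ℝ, 0 < c ∧ c < 1 + lam xs ∧
      Real.sinh (l xs) ^ 2 * G xs η + I xs η ^ 2 < c ^ 2 / 4 * G xs η ^ 2 := by
    have hcont : Tendsto (fun c : ℝ => c ^ 2 / 4 * G xs η ^ 2) (𝓝[<] (1 + lam xs))
        (𝓝 ((1 + lam xs) ^ 2 / 4 * G xs η ^ 2)) := by
      have : Continuous (fun c : ℝ => c ^ 2 / 4 * G xs η ^ 2) := by fun_prop
      exact (this.tendsto _).mono_left nhdsWithin_le_nhds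
    have h2 := hcont.eventually_const_lt hstrict
    have h3 : ∀ᶠ c in 𝓝[<] (1 + lam xs), c < 1 + lam xs := self_mem_nhdsWithin
    have h4 : ∀ᶠ c in 𝓝[<] (1 + lam xs), 0 < c :=
      nhdsWithin_le_nhds (eventually_gt_nhds hlp)
    obtain ⟨c, hc⟩ := (h2.and (h3.and h4)).exists
    exact ⟨c, hc.2.2, hc.2.1, hc.1⟩
  obtain ⟨ε, hε, hsl⟩ := hslope xs hxs (1 + lam xs - c) (by linarith)
  -- limits of the three expressions
  set v : ℕ → ℂ := fun k => (a (φ k) : ℂ) * D ((a (φ k) : ℂ) + ((η * a (φ k) : ℝ) : ℂ) *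
      Complex.I) (r (φ k)) with hvdef
  have hn : Tendsto (fun k => ‖v k‖ ^ 2) atTop (𝓝 (G xs η)) := by
    have := (hv.norm).pow 2
    rwa [hL, norm_div_sq] at this
  have him : Tendsto (fun k => (v k).im) atTop (𝓝 (I xs η)) := by
    have := (Complex.continuous_im.tendsto _).comp hv
    rwa [hL, im_div] at this
  set q : ℕ → ℝ := fun k => l (x k) + l (x k + a (φ k)) - a (φ k) with hqdef
  have t1 : Tendsto (fun k => ‖v k‖ ^ 2 * c ^ 2 / 2 - (Real.cosh (q k) - 1)) atTop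
      (𝓝 (G xs η * c ^ 2 / 2 - (Real.cosh (l xs + l xs) - 1))) :=
    ((hn.mul_const (c ^ 2)).div_const 2).sub (hq.sub_const 1)
  have t2 : Tendsto (fun k => 2 * ‖v k‖ ^ 2 - a (φ k) ^ 2 * (Real.cosh (q k) + 1)) atTop
      (𝓝 (2 * G xs η - 0 ^ 2 * (Real.cosh (l xs + l xs) + 1))) :=
    (hn.const_mul 2).sub ((ha0φ.pow 2).mul (hq.add_const 1))
  rw [zero_pow (two_ne_zero), zero_mul, sub_zero] at t2
  have t3 : Tendsto (fun k => 4 * (v k).im ^ 2) atTop (𝓝 (4 * I xs η ^ 2)) :=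
    (him.pow 2).const_mul 4
  have ecosh : Real.cosh (l xs + l xs) - 1 = 2 * Real.sinh (l xs) ^ 2 := by
    have h := Real.cosh_two_mul (l xs)
    have h2 := Real.cosh_sq (l xs)
    rw [two_mul] at h
    rw [h, h2]
    ring
  have p1 : 0 < G xs η * c ^ 2 / 2 - (Real.cosh (l xs + l xs) - 1) := by
    rw [ecosh]
    have h5 : Real.sinh (l xs) ^ 2 * G xs η < c ^ 2 / 4 * G xs η ^ 2 :=
      lt_of_le_of_lt (le_add_of_nonneg_right (sq_nonneg _)) hc2
    have h6 : G xs η * Real.sinh (l xs) ^ 2 < G xs η * (c ^ 2 / 4 * G xs η) := by nlinarith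
    have h7 := lt_of_mul_lt_mul_left h6 hGp.le
    linarith
  have p3 : 4 * I xs η ^ 2 < (G xs η * c ^ 2 / 2 - (Real.cosh (l xs + l xs) - 1)) *
      (2 * G xs η) := by
    rw [ecosh]
    nlinarith
  have ev1 := t1.eventually_const_lt p1
  have ev2 := t2.eventually_const_lt (by linarith : (0 : ℝ) < 2 * G xs η)
  have ev3 := t3.eventually_lt (t1.mul t2) p3
  have ev4 : ∀ᶠ k in atTop, |x k - xs| < ε := by
    have := (tendsto_order.1 (hxlim.sub_const xs).abs).2 ε (by simpa using hε)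
    exact this
  have ev5 : ∀ᶠ k in atTop, |x k + a (φ k) - xs| < ε := by
    have := (tendsto_order.1 (hx2.sub_const xs).abs).2 ε (by simpa using hε)
    exact this
  obtain ⟨k, hk1, hk2, hk3, hk4, hk5⟩ := (ev1.and (ev2.and (ev3.and (ev4.and ev5)))).exists
  have hak0 := ha (φ k)
  have hxk : x₀ ≤ x k := hr1 (φ k)
  have hs := hsl (x k) (x k + a (φ k)) hxk (by linarith) hk4 hk5
  have key := final (w := D ((a (φ k) : ℂ) + ((η * a (φ k) : ℝ) : ℂ) * Complex.I) (r (φ k)))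
    (a := a (φ k)) (c := c) (p := a (φ k) + l (x k + a (φ k)) - l (x k)) (q := q k) hak0 hc0
    (by
      have : lam xs - (1 + lam xs - c) = c - 1 := by ring
      rw [this] at hs
      nlinarith) hk1 hk2 hk3
  have hb := hbad (φ k)
  have e5 : ((r (φ k) : ℝ) + 1) * a (φ k) = x k + a (φ k) := by
    simp only [hx]
    ring
  rw [e5] at hb
  exact absurd key (not_lt.2 hb)

end Pool.Agent.Helper69.TW
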